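import Pool.Agent.H74.G.R_seed8.R189.NC.Group
import Pool.Agent.H74.G.R_seed8.TH382.QC.Defs

/-!
# Periodic nilmanifolds `G / Γ` with affine return maps: definitions
-/

set_option autoImplicit false

open scoped Manifold ContDiff Topology
open Filter Set

universe u

namespace Pool.Agent.R189.NC

open Pool.Agent.H718R2.G

/-- `act` is a smooth action of the Lie group `G` on the open subset `O` of the manifold `N`. The
(nilpotent) Lie group `G` is given as a topological group with a faithful continuous representation `ι`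
by unitriangular real matrices (every simply connected nilpotent Lie group has one). Smoothness: for
every family `c` of elements of `G` whose matrices depend smoothly on a parameter `s ∈ ℝʲ`, the map
`(s, y) ↦ c(s) y` is smooth. -/
structure IsNilAction (n : ℕ) (N : Type u) [TopologicalSpace N] [ChartedSpace (V n) N]
    {G : Type} [Group G] [TopologicalSpace G] {d : ℕ} (ι : G →* Md d)
    (O : Set N) (act : G → N → N) : Prop where
  rep_cont : Continuous ι
  rep_inj : Function.Injective ι
  uni : ∀ g, Uni (ι g)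
  isOpen : IsOpen O
  maps : ∀ g, ∀ y ∈ O, act g y ∈ O
  one : ∀ y ∈ O, act 1 y = y
  mul : ∀ g h, ∀ y ∈ O, act (g * h) y = act g (act h y)
  cont : ContinuousOn (fun p : G × N => act p.1 p.2) (univ ×ˢ O)
  smooth : ∀ (j : ℕ) (c : V j → G), (∀ a b, ContDiff ℝ ∞ fun s => ι (c s) a b) →
    ContMDiffOn ((𝓡 j).prod (𝓡 n)) (𝓡 n) ∞ (fun p : V j × N => act (c p.1) p.2) (univ ×ˢ O)

/-- The stabiliser `Γ` of `y` is a cocompact arithmetic subgroup of `G`, up to conjugation:
* `G` is generated by smooth one parameter subgroups `c` with `c 1 ∈ Γ`;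
* for some `u ∈ G` the group `u⁻¹ Γ u` consists of elements with bounded denominators and contains all
  `g` with `ι g ≡ 1` modulo some `q ≥ 1`;
* `G y = K y` for some compact set `K`.
By Malcev's theorems this holds for all `G`, `Γ` for which `G` is a simply connected nilpotent Lie group
and `Γ` is a lattice of `G`, with a suitable representation `ι`. The orbit of `y` is the nilmanifold
`G / Γ`. -/
structure IsNilPt {N : Type u} {G : Type} [Group G] [TopologicalSpace G] {d : ℕ}
    (ι : G →* Md d) (act : G → N → N) (y : N) : Prop where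
  gen : Subgroup.closure {g | ∃ c : ℝ → G, IsOne ι c ∧ act (c 1) y = y ∧ ∃ t, c t = g} = ⊤
  arith : ∃ u : G,
    (∃ D : ℕ, 1 ≤ D ∧ ∀ g, act g y = y → ∀ a b, ∃ z : ℤ, (D : ℝ) * ι (u⁻¹ * g * u) a b = z) ∧
    (∃ q : ℕ, 1 ≤ q ∧ ∀ g, (∀ a b, ∃ z : ℤ, ι (u⁻¹ * g * u) a b - (1 : Md d) a b = q * z) →
      act g y = y)
  cocompact : ∃ K : Set G, IsCompact K ∧ ∀ g, ∃ k ∈ K, act g y = act k y

/-- `y` lies on a periodic nilmanifold `C ≅ G / Γ` of `F` with affine return map: a simply connected
nilpotent Lie group `G` acts smoothly on an open set `O` which contains `y`, the stabiliser `Γ` of `y` is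
cocompact and arithmetic, the orbit `C = G y` is periodic with some period `m ≥ 1` (`F^i(C)` does not
meet `C` for `1 ≤ i < m`), and on `C` the map `F^m` is `g y ↦ h φ(g) y` for some `h ∈ G` and some
endomorphism `φ` of the group `G`. Nothing is required of `F` outside of `C, F(C), ..., F^(m-1)(C)`. -/
def IsNilPer (n : ℕ) (N : Type u) [TopologicalSpace N] [ChartedSpace (V n) N] (F : N → N)
    (y : N) : Prop :=
  ∃ (G : Type) (_ : Group G) (_ : TopologicalSpace G) (_ : IsTopologicalGroup G) (d : ℕ)
    (ι : G →* Md d) (O : Set N) (act : G → N → N),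
    IsNilAction n N ι O act ∧ y ∈ O ∧ IsNilPt ι act y ∧
    ∃ m : ℕ, 1 ≤ m ∧
      (∃ (h : G) (φ : G →* G), ∀ g, F^[m] (act g y) = act (h * φ g) y) ∧
      ∀ i, 1 ≤ i → i < m → ∀ g g', F^[i] (act g y) ≠ act g' y

end Pool.Agent.R189.NC
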